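import Mathlib

set_option autoImplicit false

namespace Pool.Agent.Results.MP_78fb5d_an.NormalisedCounterexample

/-- `μ` is a non-negative weak tiling measure for `E` in `ℤ/M`:
`μ ≥ 0` and `(1_E * μ)(x) = ∑_y 1_E(x - y) μ(y) = 1` for every `x`. -/
def IsWeakTilingMeasure {M : ℕ} [NeZero M] (E : Set (ZMod M)) (μ : ZMod M → ℝ) : Prop :=
  (∀ x, 0 ≤ μ x) ∧ ∀ x, ∑ y : ZMod M, E.indicator (fun _ => (1 : ℝ)) (x - y) * μ y = 1

/-- `E ⊕ T = ℤ/M`: every `x` has exactly one representation `x = e + t`, `e ∈ E`, `t ∈ T`. -/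
def IsTilingComplement {M : ℕ} (E T : Set (ZMod M)) : Prop :=
  ∀ x : ZMod M, ∃! p : ZMod M × ZMod M, p.1 ∈ E ∧ p.2 ∈ T ∧ p.1 + p.2 = x

/-- `μ` is a convex combination of the counting measures of tiling complements of `E`. -/
def IsConvexCombinationOfTilings {M : ℕ} (E : Set (ZMod M)) (μ : ZMod M → ℝ) : Prop :=
  ∃ (N : ℕ) (T : Fin N → Set (ZMod M)) (c : Fin N → ℝ),
    (∀ k, IsTilingComplement E (T k)) ∧ (∀ k, 0 ≤ c k) ∧ ∑ k, c k = 1 ∧
      ∀ x, μ x = ∑ k, c k * (T k).indicator (fun _ => (1 : ℝ)) x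

/-- The set, as a finset. -/
def E0 : Finset (ZMod 48) := {0, 1, 8, 9, 12, 13, 20, 21}

/-- Twice the measure, as an integer valued function. -/
def m0 (x : ZMod 48) : ℕ :=
  if x ∈ ({0, 16, 32} : Finset (ZMod 48)) then 2
  else if x ∈ ({2, 18, 22, 26, 42, 46} : Finset (ZMod 48)) then 1 else 0

lemma conv0 : ∀ x : ZMod 48, ∑ e ∈ E0, m0 (x - e) = 2 := by
  decide +kernel

lemma tiles_inj : ∀ e ∈ ([0, 1, 8, 9, 12, 13, 20, 21] : List (ZMod 48)),
    ∀ t ∈ ([0, 2, 16, 18, 32, 34] : List (ZMod 48)),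
    ∀ e' ∈ ([0, 1, 8, 9, 12, 13, 20, 21] : List (ZMod 48)),
    ∀ t' ∈ ([0, 2, 16, 18, 32, 34] : List (ZMod 48)), e + t = e' + t' → e = e' ∧ t = t' := by
  decide +kernel

lemma tiles_surj : ∀ x : ZMod 48, ∃ e ∈ ([0, 1, 8, 9, 12, 13, 20, 21] : List (ZMod 48)),
    ∃ t ∈ ([0, 2, 16, 18, 32, 34] : List (ZMod 48)), e + t = x := by
  decide +kernel

lemma mem_E0 (x : ZMod 48) : x ∈ (E0 : Set (ZMod 48)) ↔
    x ∈ ([0, 1, 8, 9, 12, 13, 20, 21] : List (ZMod 48)) := by
  simp [E0]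

/-- The set tiles `ℤ/48`. -/
lemma tiles0 : IsTilingComplement (E0 : Set (ZMod 48))
    {t | t ∈ ([0, 2, 16, 18, 32, 34] : List (ZMod 48))} := by
  intro x
  obtain ⟨e, he, t, ht, hx⟩ := tiles_surj x
  refine ⟨(e, t), ⟨(mem_E0 e).2 he, ht, hx⟩, ?_⟩
  rintro ⟨e', t'⟩ ⟨he', ht', hx'⟩
  have h := tiles_inj e' ((mem_E0 e').1 he') t' ht' e he t ht (hx'.trans hx.symm)
  exact Prod.ext h.1 h.2

/-- No tiling complement of the set is contained in the support of the measure. -/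
lemma no_tiling (T : Set (ZMod 48)) (hT : IsTilingComplement (E0 : Set (ZMod 48)) T)
    (hsub : ∀ t ∈ T, m0 t ≠ 0) : False := by
  -- for each of `x = 6, 10, 14`, exactly one of two elements of the support is in `T`
  have key : ∀ (x a b : ZMod 48), (∀ e ∈ E0, m0 (x - e) ≠ 0 → x - e = a ∨ x - e = b) →
      a ≠ b → x - a ∈ E0 → x - b ∈ E0 → ((a ∈ T ∧ b ∉ T) ∨ (a ∉ T ∧ b ∈ T)) := by
    intro x a b h hab ha hb
    obtain ⟨p, ⟨hp1, hp2, hp3⟩, hu⟩ := hT x
    have hp2' : x - p.1 = p.2 := by rw [← hp3]; ring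
    have h1 := h p.1 hp1 (by rw [hp2']; exact hsub _ hp2)
    have huniq : ¬ (a ∈ T ∧ b ∈ T) := by
      rintro ⟨haT, hbT⟩
      have e1 := hu (x - a, a) ⟨ha, haT, by ring⟩
      have e2 := hu (x - b, b) ⟨hb, hbT, by ring⟩
      have : (x - a, a) = (x - b, b) := e1.trans e2.symm
      exact hab (Prod.mk.inj this).2
    rw [hp2'] at h1
    rcases h1 with h1 | h1
    · left
      refine ⟨h1 ▸ hp2, fun hb' => huniq ⟨h1 ▸ hp2, hb'⟩⟩
    · right
      refine ⟨fun ha' => huniq ⟨ha', h1 ▸ hp2⟩, h1 ▸ hp2⟩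
  have k1 := key 6 42 46 (by decide +kernel) (by decide) (by decide +kernel) (by decide +kernel)
  have k2 := key 10 2 46 (by decide +kernel) (by decide) (by decide +kernel) (by decide +kernel)
  have k3 := key 14 2 42 (by decide +kernel) (by decide) (by decide +kernel) (by decide +kernel)
  tauto

/-- **Normalised counterexample.**  There are `M`, a set `E ∋ 0` generating `ℤ/M` which tiles
`ℤ/M`, and a non-negative weak tiling measure `μ` for `E` with `μ(0) = 1`, such that `μ` is not a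
convex combination of counting measures of tiling complements of `E`. -/
theorem result :
    ∃ (M : ℕ) (_ : NeZero M) (E : Set (ZMod M)) (μ : ZMod M → ℝ),
      (0 : ZMod M) ∈ E ∧ AddSubgroup.closure E = ⊤ ∧
      (∃ T : Set (ZMod M), IsTilingComplement E T) ∧
      IsWeakTilingMeasure E μ ∧ μ 0 = 1 ∧
      ¬ IsConvexCombinationOfTilings E μ := by
  refine ⟨48, inferInstance, (E0 : Set (ZMod 48)), fun x => (m0 x : ℝ) / 2, ?_, ?_, ?_, ?_, ?_, ?_⟩
  · decide
  · rw [eq_top_iff]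
    intro x _
    have h1 : (1 : ZMod 48) ∈ AddSubgroup.closure (E0 : Set (ZMod 48)) :=
      AddSubgroup.subset_closure (by decide)
    have : x = x.val • (1 : ZMod 48) := by
      rw [nsmul_eq_mul, mul_one, ZMod.natCast_zmod_val]
    rw [this]
    exact AddSubgroup.nsmul_mem _ h1 _
  · exact ⟨_, tiles0⟩
  · refine ⟨fun x => by positivity, fun x => ?_⟩
    have h' : ((∑ e ∈ E0, m0 (x - e) : ℕ) : ℝ) = 2 := by
      rw [conv0 x]; norm_num
    push_cast at h'
    calc ∑ y : ZMod 48, (E0 : Set (ZMod 48)).indicator (fun _ => (1 : ℝ)) (x - y) * ((m0 y : ℝ) / 2)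
        = ∑ y : ZMod 48, (if y ∈ E0 then (m0 (x - y) : ℝ) / 2 else 0) := by
          rw [← (Equiv.subLeft x).sum_comp
            (fun y => (if y ∈ E0 then (m0 (x - y) : ℝ) / 2 else 0))]
          refine Finset.sum_congr rfl fun y _ => ?_
          by_cases hy : x - y ∈ E0 <;> simp [Set.indicator, hy]
      _ = (∑ e ∈ E0, (m0 (x - e) : ℝ)) / 2 := by
          rw [← Finset.sum_filter, Finset.sum_div]
          simp
      _ = 1 := by rw [h']; norm_num
  · have : m0 0 = 2 := by decide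
    simp only [this]; norm_num
  · rintro ⟨N, T, c, hT, hc, hsum, hμ⟩
    -- some coefficient is positive
    obtain ⟨k, hk⟩ : ∃ k, 0 < c k := by
      by_contra hcon
      push Not at hcon
      have : ∑ k, c k ≤ 0 := Finset.sum_nonpos fun k _ => hcon k
      linarith
    refine no_tiling (T k) (hT k) fun t ht h0 => ?_
    have h1 := hμ t
    simp only [h0, Nat.cast_zero, zero_div] at h1
    have h2 : c k * (T k).indicator (fun _ => (1 : ℝ)) t ≤
        ∑ j, c j * (T j).indicator (fun _ => (1 : ℝ)) t := by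
      refine Finset.single_le_sum (f := fun j => c j * (T j).indicator (fun _ => (1 : ℝ)) t)
        (fun j _ => ?_) (Finset.mem_univ k)
      exact mul_nonneg (hc j) (Set.indicator_nonneg (fun _ _ => zero_le_one) _)
    rw [← h1, Set.indicator_of_mem ht] at h2
    linarith

end Pool.Agent.Results.MP_78fb5d_an.NormalisedCounterexample
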